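import Pool.Agent.V11112.TE5

/-!
A transitive system of finite entropy where the growth rate of spanning sets oscillates at some
scale, while the growth rate of separated sets exists at every scale.
-/

open Filter Topology

namespace Pool.Agent.Results.MP_307271_an.SpanOnlyOscillates

open V11112.TE

/-- closeness of letters: in the first phase the letter `0` is close to every letter, in the second
phase the letter `1` is close to every letter; the other pairs of distinct letters are far -/
def near (c : Bool) (v v' : Fin 3) : Prop :=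
  match c with
  | false => v = 0 ∨ v' = 0
  | true => v = 1 ∨ v' = 1

/-- the class of a letter: `0` and `1` are in the same class -/
def cls (v : Fin 3) : Bool := decide (v = 2)

/-- representatives of the classes -/
def sec (c : Bool) : Fin 3 := if c then 2 else 0

/-- letters far from each other in the first phase -/
def inj (c : Bool) : Fin 3 := if c then 2 else 1

/-- dominating letters -/
def ctr (c : Bool) : Fin 3 := if c then 1 else 0

theorem farV_false {v v' : Fin 3} : farV near false v v' ↔ v ≠ v' ∧ v ≠ 0 ∧ v' ≠ 0 := by
  unfold farV near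
  simp only
  constructor
  · rintro ⟨h1, h2⟩
    push Not at h2
    exact ⟨h1, h2.1.1, h2.1.2⟩
  · rintro ⟨h1, h2, h3⟩
    refine ⟨h1, ?_⟩
    push Not
    exact ⟨⟨h2, h3⟩, ⟨h3, h2⟩⟩

theorem farV_true {v v' : Fin 3} : farV near true v v' ↔ v ≠ v' ∧ v ≠ 1 ∧ v' ≠ 1 := by
  unfold farV near
  simp only
  constructor
  · rintro ⟨h1, h2⟩
    push Not at h2
    exact ⟨h1, h2.1.1, h2.1.2⟩
  · rintro ⟨h1, h2, h3⟩
    refine ⟨h1, ?_⟩
    push Not
    exact ⟨⟨h2, h3⟩, ⟨h3, h2⟩⟩

theorem hcls (v v' : Fin 3) (h1 : ¬ farV near false v v') (h2 : ¬ farV near true v v') :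
    cls v = cls v' := by
  rw [farV_false] at h1
  rw [farV_true] at h2
  revert v v'
  decide

theorem hk (c : Bool) (v v' : Fin 3) (h : cls v = cls v') : ¬ farV near c v v' := by
  cases c
  · rw [farV_false]; revert v v'; decide
  · rw [farV_true]; revert v v'; decide

theorem hinj (a b : Bool) (h : a ≠ b) : farV near false (inj a) (inj b) := by
  rw [farV_false]; revert a b; decide

theorem hctr (c : Bool) (v : Fin 3) : ¬ farV near c (ctr c) v := by
  cases c
  · rw [farV_false]; revert v; decide
  · rw [farV_true]; revert v; decide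

/-- **Result** (positive answer to the second question). There is a topologically transitive
system `(X, F)` of finite entropy such that the lower and upper growth rates of `span` differ at
some scale `ε > 0`, whereas for every `δ > 0` the growth rate of `sep` at scale `δ` exists (as a
limit), so that its lower and upper growth rates agree. -/
theorem result : ∃ (X : Type) (_ : MetricSpace X) (_ : CompactSpace X) (F : X ≃ₜ X),
    Transitive F ∧ (∃ h : ℝ, HasEntropy F h) ∧
    (∃ ε : ℝ, 0 < ε ∧ lowerSpan F ε < upperSpan F ε) ∧
    ∀ δ : ℝ, 0 < δ → lowerSep F δ = upperSep F δ ∧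
      ∃ r : ℝ, Tendsto (fun T : ℕ => Real.log (sep F δ T) / T) atTop (𝓝 r) := by
  obtain ⟨e, he⟩ := exists_surjective_nat (ℕ × List (Fin 3))
  refine ⟨Pt (clS near) (word e), inferInstance, compactSpace_pt, shiftHomeo,
    transitive_shift (word_isLim e), ⟨_, hasEntropy he⟩, ⟨1, one_pos, ?_⟩, ?_⟩
  · have hlt : (0 : ℝ) < 2 / 5 * Real.log (Fintype.card Bool) := by
      rw [Fintype.card_bool]
      exact mul_pos (by norm_num) (Real.log_pos (by norm_num))
    obtain ⟨c, hc1, hc2⟩ := exists_between hlt
    have hup := upperSpan_ge (adj := near) (C := Bool) cls sec (by decide) hcls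
      (by rw [Fintype.card_bool]; norm_num) he (ε := 1) (by norm_num) le_rfl hc2
    have hlow := lowerSpan_le_zero (adj := near) he ctr hctr (ε := 1) (by norm_num) le_rfl
    exact lt_of_le_of_lt hlow (lt_of_lt_of_le hc1 hup.1)
  · intro δ hδ
    have key : ∃ r : ℝ, Tendsto (fun T : ℕ =>
        Real.log (sep (shiftHomeo (cl := clS near) (x := word e)) δ T) / T) atTop (𝓝 r) := by
      rcases le_or_gt δ (1 / 2) with h | h
      · exact ⟨_, tendsto_sep_small he hδ h⟩
      · rcases le_or_gt δ 1 with h' | h'
        · exact ⟨_, tendsto_sep_mid (C := Bool) cls (fun c v v' => hk c v v') inj hinj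
            (by rw [Fintype.card_bool]; norm_num) he h h'⟩
        · exact ⟨0, tendsto_sep_large h'⟩
    refine ⟨?_, key⟩
    obtain ⟨r, hr⟩ := key
    exact hr.liminf_eq.trans hr.limsup_eq.symm

end Pool.Agent.Results.MP_307271_an.SpanOnlyOscillates
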